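import Mathlib
import Pool.Agent.W2helper97.TX.Stm
import Pool.Agent.W2helper60.TW.P3

/-! Piece P5 of `Pool.Agent.W2helper97.TX.Stm`: from the coefficients to counting (after
`Pool.Agent.W2helper60.TW.P3`). -/

set_option autoImplicit false

namespace Pool.Agent.W2helper17.TX

open Filter Topology Pool.Agent.W189.TP Pool.Agent.W2helper97.TW Pool.Agent.W2helper97.TX
open Pool.Agent.W2helper60.TW (term_le one_lt_prime log_prime_nonneg summable_log exp_log_mul h0
  h0_nonneg summable_h0 finite_le tail_le base_lt)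

/-- the primes and their squares -/
noncomputable def g1 {S : Finset Nat.Primes} (x : PS S × ℕ) : ℝ :=
  if x.2 < 2 then Real.log ((x.1.1 : ℕ) : ℝ) * Real.exp (-(3 / 2 * LL x)) else 0

theorem g1_nonneg {S : Finset Nat.Primes} (x : PS S × ℕ) : 0 ≤ g1 x := by
  unfold g1
  split_ifs
  · exact mul_nonneg (log_prime_nonneg x.1) (Real.exp_pos _).le
  · exact le_rfl

theorem summable_g1 {S : Finset Nat.Primes} : Summable (g1 (S := S)) := by
  have h1' : Summable fun j : ℕ => if j < 2 then (1 : ℝ) else 0 :=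
    summable_of_ne_finset_zero (s := Finset.range 2) fun j hj => if_neg (by simpa using hj)
  have h2 := (summable_log (S := S) (σ := 3 / 2) (by norm_num)).mul_of_nonneg h1'
    (fun p => mul_nonneg (log_prime_nonneg p) (by positivity))
    (fun j => by dsimp only; split_ifs <;> norm_num)
  refine Summable.of_nonneg_of_le g1_nonneg (fun x => ?_) h2
  unfold g1
  split_ifs with hx
  · rw [mul_one]
    refine mul_le_mul_of_nonneg_left ?_ (log_prime_nonneg x.1)
    rw [← exp_log_mul]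
    refine Real.exp_le_exp.2 ?_
    have h3 := log_prime_nonneg x.1
    have h4 : Real.log ((x.1.1 : ℕ) : ℝ) ≤ LL x := by
      unfold LL
      have : (0 : ℝ) ≤ x.2 := Nat.cast_nonneg _
      nlinarith
    linarith
  · simp

/-- the middle range -/
def Win {S : Finset Nat.Primes} (E : PS S → Prop) (u₁ u₂ : ℝ) : Set (PS S × ℕ) :=
  {x | x.2 < 2 ∧ E x.1 ∧ u₁ < LL x ∧ LL x < u₂}

theorem log_le_LL {S : Finset Nat.Primes} (x : PS S × ℕ) : Real.log ((x.1.1 : ℕ) : ℝ) ≤ LL x := by
  have h3 := log_prime_nonneg x.1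
  unfold LL
  have : (0 : ℝ) ≤ x.2 := Nat.cast_nonneg _
  nlinarith

theorem Win_finite {S : Finset Nat.Primes} (E : PS S → Prop) (u₁ u₂ : ℝ) : (Win E u₁ u₂).Finite := by
  refine ((finite_le (Real.exp u₂)).prod (Set.finite_Iio 2)).subset fun x hx => ⟨?_, hx.1⟩
  have hp0 : (0 : ℝ) < ((x.1.1 : ℕ) : ℝ) := by linarith [one_lt_prime x.1]
  exact ((Real.log_lt_iff_lt_exp hp0).1 ((log_le_LL x).trans_lt hx.2.2.2)).le

open scoped Classical in
/-- indicator of the middle range -/
noncomputable def J {S : Finset Nat.Primes} (M : Set (PS S × ℕ)) (x : PS S × ℕ) : ℝ :=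
  if x ∈ M then 1 else 0

theorem J_nonneg {S : Finset Nat.Primes} (M : Set (PS S × ℕ)) (x : PS S × ℕ) : 0 ≤ J M x := by
  unfold J
  split_ifs <;> norm_num

theorem hasSum_J {S : Finset Nat.Primes} {M : Set (PS S × ℕ)} (hM : M.Finite) :
    HasSum (J M) (M.ncard : ℝ) := by
  classical
  have h1 : HasSum (J M) (∑ x ∈ hM.toFinset, J M x) := by
    refine hasSum_sum_of_ne_finset_zero fun x hx => ?_
    unfold J
    rw [if_neg]
    intro h
    exact hx (hM.mem_toFinset.2 h)
  have h2 : ∑ x ∈ hM.toFinset, J M x = (M.ncard : ℝ) := by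
    rw [Finset.sum_congr rfl (g := fun _ => (1 : ℝ))]
    · rw [Finset.sum_const, Set.ncard_eq_toFinset_card M hM, nsmul_eq_mul, mul_one]
    · intro x hx
      unfold J
      rw [if_pos (hM.mem_toFinset.1 hx)]
  rwa [h2] at h1

theorem Nk_le {S : Finset Nat.Primes} (E : PS S → Prop) (d : PS S × ℕ → ℝ) {K : ℝ} (hK : 0 < K)
    (hd2 : ∀ x, -(K / ((x.2 : ℝ) + 1)) ≤ d x)
    (hd3 : ∀ x, x.2 < 2 → d x < 0 → E x.1) {a v₁ v₂ : ℝ} (ha : 1 < a) (hv₁ : 0 < v₁) (hv₁' : v₁ < 1)
    (hv₂ : 1 < v₂) (hav : a / v₂ ≤ a - 1) (k : ℕ) :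
    Nk d LL (a + 1 / 2) k ≤ K * (a⁻¹) ^ k * ((a / (a + 1 / 10)) ^ k * ∑' x : PS S × ℕ, h0 x +
      ((v₁ * Real.exp (1 - v₁ * (a - 1) / a)) ^ k + (v₂ * Real.exp (1 - v₂ * (a - 1) / a)) ^ k) *
        ∑' x : PS S × ℕ, g1 x +
      ((Win E (v₁ * k / a) (v₂ * k / a)).ncard : ℝ) * (v₂ * k / a * Real.exp (-(v₁ * k / a) / 2))) := by
  set u₁ := v₁ * k / a with hu₁
  set u₂ := v₂ * k / a with hu₂
  set M := Win E u₁ u₂ with hM
  set r0 := a / (a + 1 / 10) with hr0
  set r1 := v₁ * Real.exp (1 - v₁ * (a - 1) / a) with hr1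
  set r2 := v₂ * Real.exp (1 - v₂ * (a - 1) / a) with hr2
  have ha0 : 0 < a := by linarith
  have hr0p : 0 < r0 := by positivity
  have hr1p : 0 < r1 := by positivity
  have hr2p : 0 < r2 := by positivity
  have hu₂p : 0 ≤ u₂ := by positivity
  set G : PS S × ℕ → ℝ := fun x => K * (a⁻¹) ^ k * (r0 ^ k * h0 x + (r1 ^ k + r2 ^ k) * g1 x +
    J M x * (u₂ * Real.exp (-u₁ / 2))) with hG
  have hGs : HasSum G (K * (a⁻¹) ^ k * (r0 ^ k * ∑' x : PS S × ℕ, h0 x +
      (r1 ^ k + r2 ^ k) * ∑' x : PS S × ℕ, g1 x + (M.ncard : ℝ) * (u₂ * Real.exp (-u₁ / 2)))) := by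
    refine HasSum.mul_left _ (((summable_h0.hasSum.mul_left _).add (summable_g1.hasSum.mul_left _)).add
      ((hasSum_J (Win_finite E u₁ u₂)).mul_right _))
  have hG0 : ∀ x, 0 ≤ G x := fun x => by
    have := h0_nonneg x
    have := g1_nonneg x
    have := J_nonneg M x
    simp only [hG]
    positivity
  have hle : ∀ x : PS S × ℕ, max (-(d x * LL x)) 0 *
      (Real.exp (-((a + 1 / 2) * LL x)) * ((LL x) ^ k / (k.factorial : ℝ))) ≤ G x := by
    intro x
    have hLL := LL_nonneg x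
    have hlog := log_prime_nonneg x.1
    have hterm : 0 ≤ Real.exp (-((a + 1 / 2) * LL x)) * ((LL x) ^ k / (k.factorial : ℝ)) := by
      positivity
    have hmax : max (-(d x * LL x)) 0 ≤ K * Real.log ((x.1.1 : ℕ) : ℝ) := by
      refine max_le ?_ (by positivity)
      have h2 := mul_le_mul_of_nonneg_right (hd2 x) hLL
      have e : -(K / ((x.2 : ℝ) + 1)) * LL x = -(K * Real.log ((x.1.1 : ℕ) : ℝ)) := by
        unfold LL
        field_simp
      rw [e] at h2
      linarith
    have hzero : 0 ≤ d x → max (-(d x * LL x)) 0 *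
        (Real.exp (-((a + 1 / 2) * LL x)) * ((LL x) ^ k / (k.factorial : ℝ))) ≤ G x := by
      intro h
      rw [max_eq_right (by nlinarith), zero_mul]
      exact hG0 x
    have hb : max (-(d x * LL x)) 0 *
        (Real.exp (-((a + 1 / 2) * LL x)) * ((LL x) ^ k / (k.factorial : ℝ))) ≤
        K * Real.log ((x.1.1 : ℕ) : ℝ) *
        (Real.exp (-((a + 1 / 2) * LL x)) * ((LL x) ^ k / (k.factorial : ℝ))) :=
      mul_le_mul_of_nonneg_right hmax hterm
    rcases Nat.lt_or_ge x.2 2 with hx | hx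
    · rcases le_or_gt 0 (d x) with hd | hd
      · exact hzero hd
      · have hE := hd3 x hx hd
        refine hb.trans ?_
        have hlu := log_le_LL x
        set u := LL x with hu
        set l := Real.log ((x.1.1 : ℕ) : ℝ) with hl
        have hh1 : g1 x = l * Real.exp (-(3 / 2 * u)) := by
          unfold g1
          rw [if_pos hx]
        have hh0 := h0_nonneg x
        have hI := J_nonneg M x
        rcases le_or_gt u u₁ with h2 | h2
        · have h3 := tail_le (a := a) (v := v₁) ha0 hv₁ hLL k (by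
            refine mul_le_mul_of_nonneg_left h2 ?_
            have : a ≤ a / v₁ := by
              rw [le_div_iff₀ hv₁]
              nlinarith
            linarith)
          calc K * l * (Real.exp (-((a + 1 / 2) * u)) * (u ^ k / (k.factorial : ℝ)))
              ≤ K * l * ((a⁻¹) ^ k * (r1 ^ k * Real.exp (-(3 / 2 * u)))) := by gcongr
            _ = K * (a⁻¹) ^ k * (0 + (r1 ^ k + 0) * g1 x + 0) := by
              rw [hh1]
              ring
            _ ≤ G x := by
              have := g1_nonneg x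
              simp only [hG]
              gcongr <;> positivity
        · rcases le_or_gt u₂ u with h4 | h4
          · have h3 := tail_le (a := a) (v := v₂) ha0 (by linarith) hLL k
              (mul_le_mul_of_nonpos_left h4 (by linarith))
            calc K * l * (Real.exp (-((a + 1 / 2) * u)) * (u ^ k / (k.factorial : ℝ)))
                ≤ K * l * ((a⁻¹) ^ k * (r2 ^ k * Real.exp (-(3 / 2 * u)))) := by gcongr
              _ = K * (a⁻¹) ^ k * (0 + (0 + r2 ^ k) * g1 x + 0) := by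
                rw [hh1]
                ring
              _ ≤ G x := by
                have := g1_nonneg x
                simp only [hG]
                gcongr <;> positivity
          · have hmem : x ∈ M := ⟨hx, hE, h2, h4⟩
            have hIx : J M x = 1 := by
              unfold J
              exact if_pos hmem
            have h3 := term_le (σ := a + 1 / 2) (τ := a) ha0 hLL k
            calc K * l * (Real.exp (-((a + 1 / 2) * u)) * (u ^ k / (k.factorial : ℝ)))
                ≤ K * u₂ * ((a⁻¹) ^ k * Real.exp (-u₁ / 2)) := by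
                  refine mul_le_mul (mul_le_mul_of_nonneg_left (by linarith) hK.le) (h3.trans ?_)
                    (by positivity) (by positivity)
                  refine mul_le_mul_of_nonneg_left (Real.exp_le_exp.2 ?_) (by positivity)
                  linarith
              _ = K * (a⁻¹) ^ k * (0 + 0 + 1 * (u₂ * Real.exp (-u₁ / 2))) := by ring
              _ ≤ G x := by
                have := g1_nonneg x
                simp only [hG, hIx]
                gcongr
                · positivity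
                · positivity
    · refine hb.trans ?_
      have h3 := term_le (σ := a + 1 / 2) (τ := a + 1 / 10) (by linarith) hLL k
      have hh0 : h0 x = Real.log ((x.1.1 : ℕ) : ℝ) * Real.exp (-(2 / 5 * LL x)) := by
        unfold h0
        rw [if_pos hx]
      have e1 : ((a + 1 / 10)⁻¹) ^ k = (a⁻¹) ^ k * r0 ^ k := by
        rw [← mul_pow, hr0]
        congr 1
        field_simp
      have e2 : -((a + 1 / 2 - (a + 1 / 10)) * LL x) = -(2 / 5 * LL x) := by ring
      rw [e1, e2] at h3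
      calc K * Real.log ((x.1.1 : ℕ) : ℝ) *
            (Real.exp (-((a + 1 / 2) * LL x)) * ((LL x) ^ k / (k.factorial : ℝ)))
          ≤ K * Real.log ((x.1.1 : ℕ) : ℝ) * ((a⁻¹) ^ k * r0 ^ k * Real.exp (-(2 / 5 * LL x))) := by
            gcongr
        _ = K * (a⁻¹) ^ k * (r0 ^ k * h0 x + 0 + 0) := by
          rw [hh0]
          ring
        _ ≤ G x := by
          have := g1_nonneg x
          have := h0_nonneg x
          have := J_nonneg M x
          simp only [hG]
          gcongr <;> positivity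
  have hf0 : ∀ x : PS S × ℕ, 0 ≤ max (-(d x * LL x)) 0 *
      (Real.exp (-((a + 1 / 2) * LL x)) * ((LL x) ^ k / (k.factorial : ℝ))) := by
    intro x
    have hLL := LL_nonneg x
    have := le_max_right (-(d x * LL x)) 0
    positivity
  have hfs := Summable.of_nonneg_of_le hf0 hle hGs.summable
  unfold Nk
  rw [← hGs.tsum_eq]
  exact hfs.tsum_le_tsum hle hGs.summable

theorem lower {S : Finset Nat.Primes} (E : PS S → Prop) (d : PS S × ℕ → ℝ) {K : ℝ} (hK : 0 < K)
    (hd2 : ∀ x, -(K / ((x.2 : ℝ) + 1)) ≤ d x)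
    (hd3 : ∀ x, x.2 < 2 → d x < 0 → E x.1) {a v₁ v₂ : ℝ} (ha : 1 < a) (hv₁ : 0 < v₁) (hv₁' : v₁ < 1)
    (hv₂ : 1 < v₂) (hav : a / v₂ ≤ a - 1)
    (hr1 : v₁ * Real.exp (1 - v₁ * (a - 1) / a) < 1) (hr2 : v₂ * Real.exp (1 - v₂ * (a - 1) / a) < 1)
    (hc : ∃ c : ℝ, 0 < c ∧ ∀ᶠ k : ℕ in atTop, c * ((a + 1 / 2 - 1 / 2)⁻¹) ^ k ≤ Nk d LL (a + 1 / 2) k) :
    ∃ c : ℝ, 0 < c ∧ ∀ᶠ k : ℕ in atTop, c * Real.exp (v₁ * k / a / 2) ≤
      ((Win E (v₁ * k / a) (v₂ * k / a)).ncard : ℝ) / 2 * (v₂ * k / a) := by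
  obtain ⟨c, hc0, hc⟩ := hc
  have ha0 : 0 < a := by linarith
  refine ⟨c / (2 * K) / 2, by positivity, ?_⟩
  have hr0 : a / (a + 1 / 10) < 1 := by
    rw [div_lt_one (by positivity)]
    linarith
  have t0 := tendsto_pow_atTop_nhds_zero_of_lt_one (r := a / (a + 1 / 10)) (by positivity) hr0
  have t1 := tendsto_pow_atTop_nhds_zero_of_lt_one (r := v₁ * Real.exp (1 - v₁ * (a - 1) / a))
    (by positivity) hr1
  have t2 := tendsto_pow_atTop_nhds_zero_of_lt_one (r := v₂ * Real.exp (1 - v₂ * (a - 1) / a))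
    (by positivity) hr2
  have t3 := (t0.mul_const (∑' x : PS S × ℕ, h0 x)).add ((t1.add t2).mul_const (∑' x : PS S × ℕ, g1 x))
  simp only [zero_mul, add_zero] at t3
  have h5 := t3.eventually (gt_mem_nhds (show (0 : ℝ) < c / (2 * K) by positivity))
  filter_upwards [hc, h5] with k hk hk2
  have h6 := Nk_le E d hK hd2 hd3 ha hv₁ hv₁' hv₂ hav k
  have h7 := hk.trans h6
  rw [add_sub_cancel_right] at h7
  have hak : 0 < (a⁻¹) ^ k := by positivity
  set X := (a / (a + 1 / 10)) ^ k * ∑' x : PS S × ℕ, h0 x +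
      ((v₁ * Real.exp (1 - v₁ * (a - 1) / a)) ^ k + (v₂ * Real.exp (1 - v₂ * (a - 1) / a)) ^ k) *
        ∑' x : PS S × ℕ, g1 x with hX
  set Y := ((Win E (v₁ * k / a) (v₂ * k / a)).ncard : ℝ) * (v₂ * k / a * Real.exp (-(v₁ * k / a) / 2))
    with hY
  have h8 : c * (a⁻¹) ^ k ≤ (K * (X + Y)) * (a⁻¹) ^ k := by linarith
  have h9 : c ≤ K * (X + Y) := le_of_mul_le_mul_right h8 hak
  have h9' : c / K ≤ X + Y := by
    rw [div_le_iff₀ hK]
    linarith
  have h9'' : c / K = 2 * (c / (2 * K)) := by field_simp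
  have h10 : c / (2 * K) ≤ Y := by linarith
  have h11 : Real.exp (-(v₁ * k / a) / 2) * Real.exp (v₁ * k / a / 2) = 1 := by
    rw [← Real.exp_add]
    rw [show -(v₁ * k / a) / 2 + v₁ * k / a / 2 = 0 by ring, Real.exp_zero]
  calc c / (2 * K) / 2 * Real.exp (v₁ * k / a / 2) ≤ Y / 2 * Real.exp (v₁ * k / a / 2) := by gcongr
    _ = ((Win E (v₁ * k / a) (v₂ * k / a)).ncard : ℝ) / 2 * (v₂ * k / a) *
        (Real.exp (-(v₁ * k / a) / 2) * Real.exp (v₁ * k / a / 2)) := by
      rw [hY]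
      ring
    _ = _ := by rw [h11, mul_one]

theorem P5_holds : P5 := by
  intro S E d K₀ hd2₀ hd3 hN ε hε
  set K : ℝ := |K₀| + 1 with hKdef
  have hK : 0 < K := by positivity
  have hd2 : ∀ x, -(K / ((x.2 : ℝ) + 1)) ≤ d x := by
    intro x
    refine le_trans ?_ (hd2₀ x)
    have h1 : K₀ ≤ K := by
      have := le_abs_self K₀
      linarith
    have h2 : K₀ / ((x.2 : ℝ) + 1) ≤ K / ((x.2 : ℝ) + 1) := by gcongr
    linarith
  set δ : ℝ := min ε 1 / 8 with hδ
  have hm : 0 < min ε 1 := lt_min hε one_pos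
  have hδ0 : 0 < δ := by positivity
  have hδ1 : δ ≤ 1 / 8 := by
    have := min_le_right ε 1
    rw [hδ]
    linarith
  have hδε : δ ≤ ε / 8 := by
    have := min_le_left ε 1
    rw [hδ]
    linarith
  set v₁ : ℝ := 1 - δ with hv₁
  set v₂ : ℝ := 1 + δ with hv₂
  have hv₁0 : 0 < v₁ := by linarith
  have hv₁1 : v₁ < 1 := by linarith
  have hv₂1 : 1 < v₂ := by linarith
  have hq₁ : 0 < v₁ - 1 - Real.log v₁ := by
    have := Real.log_lt_sub_one_of_pos hv₁0 hv₁1.ne
    linarith
  have hq₂ : 0 < v₂ - 1 - Real.log v₂ := by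
    have := Real.log_lt_sub_one_of_pos (show 0 < v₂ by linarith) hv₂1.ne'
    linarith
  set q₁ := v₁ - 1 - Real.log v₁ with hq₁d
  set q₂ := v₂ - 1 - Real.log v₂ with hq₂d
  set a : ℝ := 3 + v₁ / q₁ + v₂ / q₂ + v₂ / δ with hadef
  have p1 : 0 < v₁ / q₁ := by positivity
  have p2 : 0 < v₂ / q₂ := div_pos (by linarith) hq₂
  have p3 : 0 < v₂ / δ := div_pos (by linarith) hδ0
  have ha3 : 3 < a := by linarith
  have ha0 : 0 < a := by linarith
  have hb1 : v₁ / a < q₁ := by
    rw [div_lt_iff₀ ha0]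
    have h1 : v₁ / q₁ < a := by linarith
    rw [div_lt_iff₀ hq₁] at h1
    linarith
  have hb2 : v₂ / a < q₂ := by
    rw [div_lt_iff₀ ha0]
    have h1 : v₂ / q₂ < a := by linarith
    rw [div_lt_iff₀ hq₂] at h1
    linarith
  have hav : a / v₂ ≤ a - 1 := by
    rw [div_le_iff₀ (by linarith)]
    have h1 : v₂ / δ ≤ a := by linarith
    rw [div_le_iff₀ hδ0] at h1
    have h2 : (a - 1) * v₂ = a + a * δ - v₂ := by
      rw [hv₂]
      ring
    rw [h2]
    linarith
  obtain ⟨c, hc0, hc⟩ := lower E d hK hd2 hd3 (a := a) (v₁ := v₁) (v₂ := v₂) (by linarith) hv₁0 hv₁1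
    hv₂1 hav (base_lt ha0 hv₁0 hb1) (base_lt ha0 (by linarith) hb2) (hN (a + 1 / 2) (by linarith))
  have tk : Tendsto (fun x : ℝ => ⌊a * Real.log x / v₂⌋₊) atTop atTop := by
    refine tendsto_nat_floor_atTop.comp ?_
    refine Tendsto.atTop_div_const (by linarith) ?_
    exact Tendsto.const_mul_atTop ha0 Real.tendsto_log_atTop
  set Y₀ : ℝ := 128 / (49 * ε ^ 2 * (c * Real.exp (-(1 / 2)))) with hY₀
  have h1 := tk.eventually hc
  have h2 := Real.tendsto_log_atTop.eventually (eventually_ge_atTop (max 1 (max (4 / (3 * ε)) Y₀)))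
  obtain ⟨X, hX⟩ := eventually_atTop.1 ((h1.and h2).and (eventually_gt_atTop 0))
  refine ⟨X, fun x hx => ?_⟩
  obtain ⟨⟨hk, hy⟩, hx0⟩ := hX x hx
  set k := ⌊a * Real.log x / v₂⌋₊ with hkdef
  set y := Real.log x with hydef
  have hy1 : 1 ≤ y := (le_max_left _ _).trans hy
  have hy2 : 4 / (3 * ε) ≤ y := ((le_max_left _ _).trans (le_max_right _ _)).trans hy
  have hy3 : Y₀ ≤ y := ((le_max_right _ _).trans (le_max_right _ _)).trans hy
  have hk1 : (k : ℝ) ≤ a * y / v₂ := Nat.floor_le (by positivity)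
  have hk2 : a * y / v₂ < k + 1 := Nat.lt_floor_add_one _
  have hv₂0 : 0 < v₂ := by linarith
  have hu2 : v₂ * k / a ≤ y := by
    rw [div_le_iff₀ ha0]
    rw [le_div_iff₀ hv₂0] at hk1
    linarith
  have hu2' : y - 1 ≤ v₂ * k / a := by
    rw [le_div_iff₀ ha0]
    rw [div_lt_iff₀ hv₂0] at hk2
    have h3 : (y - 1) * a = a * y - a := by ring
    rw [h3]
    linarith
  have hu1 : (1 - ε / 4) * y - 1 ≤ v₁ * k / a := by
    have e1 : (1 - 2 * δ) * (v₂ * k / a) ≤ v₁ * k / a := by
      have e2 : (1 - 2 * δ) * v₂ ≤ v₁ := by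
        have h3 : (1 - 2 * δ) * v₂ = 1 - δ - 2 * δ ^ 2 := by
          rw [hv₂]
          ring
        rw [h3, hv₁]
        have := sq_nonneg δ
        linarith
      have e3 : (0 : ℝ) ≤ k / a := by positivity
      have := mul_le_mul_of_nonneg_right e2 e3
      calc (1 - 2 * δ) * (v₂ * k / a) = (1 - 2 * δ) * v₂ * (k / a) := by ring
        _ ≤ v₁ * (k / a) := this
        _ = _ := by ring
    have e4 : (1 - 2 * δ) * (y - 1) ≤ (1 - 2 * δ) * (v₂ * k / a) :=
      mul_le_mul_of_nonneg_left hu2' (by linarith)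
    have e5 : δ * y ≤ ε / 8 * y := mul_le_mul_of_nonneg_right hδε (by linarith)
    have e6 : (1 - 2 * δ) * (y - 1) = y - 1 - 2 * (δ * y) + 2 * δ := by ring
    have e7 : (1 - ε / 4) * y = y - 2 * (ε / 8 * y) := by ring
    rw [e6] at e4
    rw [e7]
    linarith
  have hu1' : (1 - ε) * y ≤ v₁ * k / a := by
    have e1 : 1 ≤ 3 * ε / 4 * y := by
      rw [div_le_iff₀ (by positivity)] at hy2
      linarith
    have e7 : (1 - ε) * y = (1 - ε / 4) * y - 3 * ε / 4 * y := by ring
    rw [e7]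
    linarith
  -- the middle range is contained in the set
  set T : Set (PS S) := {p : PS S | x ^ (1 / 2 - ε) ≤ ((p.1 : ℕ) : ℝ) ∧ ((p.1 : ℕ) : ℝ) ≤ x ∧ E p}
    with hT
  have hsub : Win E (v₁ * k / a) (v₂ * k / a) ⊆ T ×ˢ Set.Iio 2 := by
    rintro ⟨p, j⟩ ⟨hj, hE, hp1, hp2⟩
    have hp0 : (0 : ℝ) < ((p.1 : ℕ) : ℝ) := by linarith [one_lt_prime p]
    have hlog := log_prime_nonneg p
    have hj' : (j : ℝ) + 1 ≤ 2 := by
      have : j + 1 ≤ 2 := hj
      exact_mod_cast this
    refine ⟨⟨?_, ?_, hE⟩, hj⟩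
    · rw [Real.rpow_def_of_pos hx0, ← Real.le_log_iff_exp_le hp0]
      have h3 : LL (p, j) ≤ 2 * Real.log ((p.1 : ℕ) : ℝ) := mul_le_mul_of_nonneg_right hj' hlog
      rw [← hydef]
      have e7 : y * (1 / 2 - ε) = ((1 - ε) * y - ε * y) / 2 := by ring
      have e8 : 0 ≤ ε * y := by positivity
      rw [e7]
      linarith
    · have h3 : Real.log ((p.1 : ℕ) : ℝ) ≤ Real.log x := by
        have := log_le_LL (p, j)
        simp only at this
        linarith
      exact (Real.log_le_log_iff hp0 hx0).1 h3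
  have hTf : T.Finite := (finite_le x).subset fun p hp => hp.2.1
  have hcard : ((Win E (v₁ * k / a) (v₂ * k / a)).ncard : ℝ) / 2 ≤ (T.ncard : ℝ) := by
    have h3 := Set.ncard_le_ncard hsub (hTf.prod (Set.finite_Iio 2))
    rw [Set.ncard_prod] at h3
    have h4 : (Set.Iio (2 : ℕ)).ncard = 2 := by
      rw [Set.ncard_eq_toFinset_card']
      simp
    rw [h4] at h3
    have h5 : ((Win E (v₁ * k / a) (v₂ * k / a)).ncard : ℝ) ≤ T.ncard * 2 := by exact_mod_cast h3
    linarith
  -- the growth condition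
  have hg : y ≤ c * Real.exp (-(1 / 2)) * Real.exp (7 * ε / 8 * y) := by
    have e1 := Real.quadratic_le_exp_of_nonneg (x := 7 * ε / 8 * y) (by positivity)
    have e2 : (7 * ε / 8 * y) ^ 2 / 2 ≤ Real.exp (7 * ε / 8 * y) := by
      have : 0 ≤ 7 * ε / 8 * y := by positivity
      linarith
    have hce : 0 < c * Real.exp (-(1 / 2)) := by positivity
    have e3 : 128 ≤ y * (49 * ε ^ 2 * (c * Real.exp (-(1 / 2)))) := by
      rw [hY₀, div_le_iff₀ (by positivity)] at hy3
      exact hy3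
    calc y = y * 1 := (mul_one y).symm
      _ ≤ y * (y * (49 * ε ^ 2 * (c * Real.exp (-(1 / 2)))) / 128) := by
        refine mul_le_mul_of_nonneg_left ?_ (by linarith)
        rw [le_div_iff₀ (by norm_num)]
        linarith
      _ = c * Real.exp (-(1 / 2)) * ((7 * ε / 8 * y) ^ 2 / 2) := by ring
      _ ≤ _ := mul_le_mul_of_nonneg_left e2 hce.le
  have hfin : x ^ (1 / 2 - ε) * y ≤ (T.ncard : ℝ) * y := by
    have hexp : Real.exp ((1 / 2 - ε / 8) * y - 1 / 2) ≤ Real.exp (v₁ * k / a / 2) :=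
      Real.exp_le_exp.2 (by linarith)
    calc x ^ (1 / 2 - ε) * y = Real.exp ((1 / 2 - ε) * y) * y := by
          rw [Real.rpow_def_of_pos hx0, ← hydef, mul_comm y]
      _ ≤ Real.exp ((1 / 2 - ε) * y) * (c * Real.exp (-(1 / 2)) * Real.exp (7 * ε / 8 * y)) :=
          mul_le_mul_of_nonneg_left hg (Real.exp_pos _).le
      _ = c * (Real.exp ((1 / 2 - ε) * y) * Real.exp (-(1 / 2)) * Real.exp (7 * ε / 8 * y)) := by ring
      _ = c * Real.exp ((1 / 2 - ε / 8) * y - 1 / 2) := by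
          rw [← Real.exp_add, ← Real.exp_add]
          congr 2
          ring
      _ ≤ c * Real.exp (v₁ * k / a / 2) := mul_le_mul_of_nonneg_left hexp hc0.le
      _ ≤ ((Win E (v₁ * k / a) (v₂ * k / a)).ncard : ℝ) / 2 * (v₂ * k / a) := hk
      _ ≤ (T.ncard : ℝ) * y := mul_le_mul hcard hu2 (by positivity) (Nat.cast_nonneg _)
  exact le_of_mul_le_mul_right hfin (by linarith)

end Pool.Agent.W2helper17.TX
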